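import Pool.Agent.Helper729.NF.Main

/-!
# A nef line bundle in characteristic zero whose reductions are not nef for every prime `p ≥ 5`

`NefMod.modelIdeal` is the (multihomogeneous, prime) ideal of all relations with integer
coefficients between the four vectors

* `A_σ = a_i - a_j`,
* `Y_i = s - t a_i`,
* `P_σ = (a_i - a_j)² (a_k - a_l)`,
* `W_σ = (s - t a_i)³ (a_j - a_k)² (a_k - a_l) (a_l - a_j)`,

where `a_0, …, a_3, s, t` are indeterminates, `σ = (i, j, k, l)` runs through the permutations of
the four indices and each of the four vectors is scaled by its own indeterminate.  It defines a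
closed integral subscheme `𝒳` of `ℙ²³ × ℙ³ × ℙ²³ × ℙ²³` over `ℤ`, flat over `ℤ`.  Let
`L = O(1, 0, -1, 1)` on `𝒳`.

For an algebraically closed field `k` and a function field `K` of one variable over `k` with smooth
projective model `C`, a `K`-valued point of `𝒳` is the same thing as a morphism `C → 𝒳_k`, and the
degree of the pullback of `L` to `C` is `degL`.
-/

set_option autoImplicit false

open NefMod

namespace Pool.Agent.Results.MP_3f2c61_ag.NotNefModPrimes

/-- The height of a vector `x` (not zero) over a function field `K/k` of one variable, `k`
algebraically closed: minus the sum over all places `v` of `K/k` of the minimum of the orders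
`v (x i)` of the non-zero entries of `x`.  This is the degree of the pullback of `O(1)` under the
morphism `[x]` from the smooth projective model of `K/k` to projective space. -/
noncomputable def height (k : Type*) {K ι : Type*} [Field k] [Field K] [Algebra k K]
    (x : ι → K) : ℤ :=
  ∑ᶠ v : FF.Place k K, - ⨅ i : {i : ι // x i ≠ 0}, v.ord (x i)

/-- The degree of the pullback of the line bundle `L = O(1, 0, -1, 1)` under the point `x`. -/
noncomputable def degL (k : Type*) {K : Type*} [Field k] [Field K] [Algebra k K]
    (x : MPoint K) : ℤ :=
  height k x.A - height k x.P + height k x.W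

/-- **Main theorem.**  The ideal `modelIdeal` is prime and contains no non-zero integer, so it
defines an integral projective scheme `𝒳`, flat over `ℤ`.  The line bundle `L = O(1, 0, -1, 1)` has
non-negative degree on every curve in `𝒳` over the algebraic closure of `ℚ`; but for every prime
`p ≥ 5` there is a curve in `𝒳` over the algebraic closure of `𝔽_p` on which it has negative
degree. -/
theorem result :
    (modelIdeal.IsPrime ∧ ∀ n : ℤ, MvPolynomial.C n ∈ modelIdeal → n = 0) ∧
    (∀ (K : Type) [Field K] [Algebra (AlgebraicClosure ℚ) K] [FF.IsFF (AlgebraicClosure ℚ) K]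
      (x : MPoint K), 0 ≤ degL (AlgebraicClosure ℚ) x) ∧
    (∀ (p : ℕ) [Fact p.Prime], 5 ≤ p →
      ∃ (K : Type) (_ : Field K) (_ : Algebra (AlgebraicClosure (ZMod p)) K)
        (_ : FF.IsFF (AlgebraicClosure (ZMod p)) K) (x : MPoint K),
        degL (AlgebraicClosure (ZMod p)) x < 0) :=
  ⟨C9, fun _ _ _ _ x => nef0 x, fun p _ hp => neg0 p hp⟩

end Pool.Agent.Results.MP_3f2c61_ag.NotNefModPrimes
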